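import Pool.Agent.helper44.EX.Spec

/-!
# Project ex: (MP_70a088_an, MP_af9036_an), module FIN: the theorem
-/

set_option autoImplicit false

open Complex Metric Set Filter Topology MeasureTheory Pool.Agent.helper98.ILF

noncomputable section

namespace EX

lemma FIN_low (n : ℕ) (c x : ℂ) (hnz : ∀ k : ℕ, (ff n c)^[k] x ≠ 0) (T : ℕ) :
    ∃ r : ℝ, 0 < r ∧ ∀ k < T, r < ‖(ff n c)^[k] x‖ := by
  induction T with
  | zero => exact ⟨1, one_pos, fun k hk => absurd hk (Nat.not_lt_zero k)⟩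
  | succ T ih =>
    obtain ⟨r, hr, h⟩ := ih
    have hpos : 0 < ‖(ff n c)^[T] x‖ := norm_pos_iff.2 (hnz T)
    refine ⟨min r (‖(ff n c)^[T] x‖ / 2), lt_min hr (by positivity), fun k hk => ?_⟩
    rcases Nat.lt_succ_iff_lt_or_eq.1 hk with hk | hk
    · exact lt_of_le_of_lt (min_le_left _ _) (h k hk)
    · rw [hk]
      refine lt_of_le_of_lt (min_le_right _ _) ?_
      linarith

lemma FIN_vd {n : ℕ} {c : ℂ} {δ δ' : ℝ} {φ : ℂ → ℂ} {U : Set ℂ} (hle : δ ≤ δ')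
    (h : VD n c δ φ U) : VD n c δ' φ U where
  hol := h.hol
  inj := h.inj
  zero := h.zero
  sub := h.sub
  comp := h.comp
  thin := by
    intro a ha hU
    obtain ⟨b, hb, hbU, hr⟩ := h.thin a ha hU
    exact ⟨b, hb, hbU, hr.trans hle⟩

theorem FIN (hRTE : RTE_stmt) (hPAR : PAR_stmt) (hSTR : STR_stmt) (hIND : IND_stmt)
    (hREC : REC_stmt) (hNZR : NZR_stmt) (hKO0 : V3.KO0_stmt) (hKO1 : V3.KO1_stmt) : FIN_stmt := by
  intro n c δ hn hδ hH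
  rintro ⟨μ, hμ⟩
  have hδ' : max δ 0 < 1 := max_lt hδ one_pos
  have hδ0 : 0 ≤ max δ 0 := le_max_right _ _
  obtain ⟨g, hg0, hgn, hroot⟩ := hRTE n (by omega)
  obtain ⟨R1, R, R2, hPR⟩ := hPAR n (max δ 0) g (by omega) hδ0 hδ' hg0 hgn hroot
  have hstr := hSTR n c μ hn hμ
  have hrec := hREC n c (by omega) (fun r hr => by
    obtain ⟨φ, U, N, -, hsub, hret⟩ := hH r hr
    exact ⟨φ '' ball 0 1, N, hsub, hret⟩)
  have hnzr := hNZR n c (by omega)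
  obtain ⟨x, hx, hs, hr, hz⟩ : ∃ x : ℂ, μ x ≠ 0 ∧ (μ x ≠ 0 → ∀ q : ℝ, q < 1 → ∃ T : ℕ, Star n c x q T) ∧
      (x ∈ juliaSet (ff n c) → ∀ ε > (0 : ℝ), ∃ k : ℕ, ‖(ff n c)^[k] x‖ < ε) ∧
      (∀ k : ℕ, (ff n c)^[k] x ≠ 0) := by
    have hall := hstr.and (hrec.and hnzr)
    by_contra hcon
    have hsub : {z | μ z ≠ 0} ⊆ {x | ¬ ((μ x ≠ 0 → ∀ q : ℝ, q < 1 → ∃ T : ℕ, Star n c x q T) ∧
      (x ∈ juliaSet (ff n c) → ∀ ε > (0 : ℝ), ∃ k : ℕ, ‖(ff n c)^[k] x‖ < ε) ∧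
      (∀ k : ℕ, (ff n c)^[k] x ≠ 0))} := by
      intro x hx hP
      exact hcon ⟨x, hx, hP.1, hP.2.1, hP.2.2⟩
    have h0 : volume {z | μ z ≠ 0} = 0 := measure_mono_null hsub (ae_iff.1 hall)
    have hpos := hμ.2.2.1
    rw [h0] at hpos
    exact lt_irrefl _ hpos
  have hxJ : x ∈ juliaSet (ff n c) := hμ.2.2.2.1 hx
  have hR0 : 0 < R := lt_trans hPR.r0 hPR.r1
  obtain ⟨T, hT⟩ := hs hx (R1 / R) ((div_lt_one hR0).2 hPR.r1)
  obtain ⟨r, hrpos, hrlow⟩ := FIN_low n c x hz T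
  obtain ⟨φ, U, N, hVD, hsub, -⟩ := hH r hrpos
  have hVD' : VD n c (max δ 0) φ U := FIN_vd (le_max_left _ _) hVD
  have hind := hIND n c (max δ 0) φ U g R1 R R2 x T (by omega) hVD' hPR hT
    (fun k hk hmem => by
      have h1 := hsub hmem
      rw [mem_ball_zero_iff] at h1
      exact lt_asymm h1 (hrlow k hk)) hz
  have hR11 : R1 < 1 := lt_trans hPR.r1 hPR.r2
  obtain ⟨C, hC, hKO⟩ := hKO1
  have hC0 : 0 < C := by linarith
  have hball : ball (0 : ℂ) R1 ⊆ ball 0 1 := ball_subset_ball hR11.le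
  have hd : deriv φ 0 ≠ 0 := hKO0 φ (ball 0 1) isOpen_ball hVD.hol hVD.inj 0 (mem_ball_self one_pos)
  have hnb := hKO φ 0 R1 hPR.r0 (hVD.hol.mono hball) (hVD.inj.mono hball)
  have hdpos : 0 < ‖deriv φ 0‖ := norm_pos_iff.2 hd
  have hε : 0 < R1 * ‖deriv φ 0‖ / C := div_pos (mul_pos hPR.r0 hdpos) hC0
  obtain ⟨k, hk⟩ := hr hxJ _ hε
  have hmem : (ff n c)^[k] x ∈ ball (φ 0) (R1 * ‖deriv φ 0‖ / C) := by
    rw [hVD.zero, mem_ball_zero_iff]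
    exact hk
  obtain ⟨a, ha, hφa⟩ := hnb hmem
  have hlt := hind k a (hball ha) hφa.symm
  rw [mem_ball_zero_iff] at ha
  exact lt_asymm ha hlt

end EX
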